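import Pool.Agent.Helper20.NP.Stmts

set_option autoImplicit false

namespace Pool.Agent.Helper20.NP

open TensorProduct KaehlerDifferential

universe u

/-- uniqueness of the extension -/
theorem dext_unique (K L : Type u) [Field K] [Field L] [Algebra K L]
    [Algebra.IsSeparable K L] (D : Derivation ℤ L L) (h : ∀ x : K, D (algebraMap K L x) = 0) :
    ∀ x : L, D x = 0 := by
  have hFE : Algebra.FormallyEtale K L := Algebra.FormallyEtale.of_isSeparable K L
  have hs : Subsingleton Ω[L⁄K] := Algebra.FormallyUnramified.subsingleton_kaehlerDifferential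
  let l : L →ₗ[K] L :=
    { toFun := D
      map_add' := fun a b => map_add D a b
      map_smul' := fun a b => by
        rw [Algebra.smul_def a b, D.leibniz, h a, smul_zero, add_zero, RingHom.id_apply,
          smul_eq_mul, Algebra.smul_def a (D b)] }
  let D' : Derivation K L L := Derivation.mk' l fun a b => D.leibniz a b
  intro x
  have h1 : D'.liftKaehlerDifferential (KaehlerDifferential.D K L x) = D' x :=
    D'.liftKaehlerDifferential_comp_D x
  rw [Subsingleton.elim (KaehlerDifferential.D K L x) 0, map_zero] at h1
  exact h1.symm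

theorem st_DEXT : ST_DEXT.{u} := by
  intro K L _ _ _ _ _ D0
  have hFE : Algebra.FormallyEtale K L := Algebra.FormallyEtale.of_isSeparable K L
  let e := KaehlerDifferential.tensorKaehlerEquivOfFormallyEtale ℤ K L
  let D1 : Derivation ℤ K L :=
    Derivation.mk' (((Algebra.linearMap K L).restrictScalars ℤ).comp D0.toLinearMap) fun a b => by
      change algebraMap K L (D0 (a * b)) = a • algebraMap K L (D0 b) + b • algebraMap K L (D0 a)
      rw [D0.leibniz, map_add, smul_eq_mul, smul_eq_mul, map_mul, map_mul, Algebra.smul_def,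
        Algebra.smul_def]
  let f : L ⊗[K] Ω[K⁄ℤ] →ₗ[L] L := LinearMap.liftBaseChange L D1.liftKaehlerDifferential
  let D : Derivation ℤ L L := (f.comp e.symm.toLinearMap).compDer (KaehlerDifferential.D ℤ L)
  have hD : ∀ x : K, D (algebraMap K L x) = algebraMap K L (D0 x) := by
    intro x
    change f (e.symm (KaehlerDifferential.D ℤ L (algebraMap K L x))) = _
    rw [KaehlerDifferential.tensorKaehlerEquivOfFormallyEtale_symm_D_algebraMap]
    rw [LinearMap.liftBaseChange_tmul, one_smul, D1.liftKaehlerDifferential_comp_D]
    rfl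
  refine ⟨D, hD, ?_⟩
  intro σ
  let l : L →ₗ[ℤ] L :=
    { toFun := fun x => σ.symm (D (σ x)) - D x
      map_add' := fun a b => by
        rw [map_add, map_add, map_add, map_add]; ring
      map_smul' := fun a b => by
        rw [map_zsmul, map_zsmul, map_zsmul, map_zsmul, ← smul_sub, RingHom.id_apply] }
  let D' : Derivation ℤ L L := Derivation.mk' l fun a b => by
    change σ.symm (D (σ (a * b))) - D (a * b) =
      a • (σ.symm (D (σ b)) - D b) + b • (σ.symm (D (σ a)) - D a)
    rw [map_mul, D.leibniz, D.leibniz]
    simp only [smul_eq_mul, map_add, map_mul, AlgEquiv.symm_apply_apply]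
    ring
  intro x
  have h1 := dext_unique K L D' (fun x => by
    change σ.symm (D (σ (algebraMap K L x))) - D (algebraMap K L x) = 0
    rw [AlgEquiv.commutes, hD, AlgEquiv.commutes, sub_self]) x
  have h2 : σ.symm (D (σ x)) - D x = 0 := h1
  have h3 : σ.symm (D (σ x)) = D x := sub_eq_zero.1 h2
  rw [← h3, AlgEquiv.apply_symm_apply]

end Pool.Agent.Helper20.NP
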