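import Pool.Agent.Helper20.NP.Stmts

set_option autoImplicit false

namespace Pool.Agent.Helper20.NP

open Pool.Agent.Helper21.DN

universe u

theorem dif0_cancel {n : ℕ} (hn : 0 < n) {a b : WithTop ℤ} (h : n • a ≤ n • b) : a ≤ b := by
  induction b using WithTop.recTopCoe with
  | top => exact le_top
  | coe b =>
    induction a using WithTop.recTopCoe with
    | top =>
      exfalso
      have h1 : n • (⊤ : WithTop ℤ) = ⊤ := by
        obtain ⟨m, rfl⟩ : ∃ m, n = m + 1 := ⟨n - 1, by omega⟩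
        rw [succ_nsmul, add_top]
      rw [h1, ← WithTop.coe_nsmul] at h
      exact absurd h (not_le.2 (WithTop.coe_lt_top _))
    | coe a =>
      rw [← WithTop.coe_nsmul, ← WithTop.coe_nsmul, WithTop.coe_le_coe, nsmul_eq_mul,
        nsmul_eq_mul] at h
      rw [WithTop.coe_le_coe]
      exact le_of_mul_le_mul_left h (by exact_mod_cast hn)

theorem dif0_eq {n : ℕ} (hn : 0 < n) {a b : WithTop ℤ} (h : n • a = n • b) : a = b :=
  le_antisymm (dif0_cancel hn h.le) (dif0_cancel hn h.ge)

theorem dif0_transfer {K : Type u} [Field K] (f : K → K) (hadd : ∀ a b, f (a + b) = f a + f b)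
    (hmul : ∀ a b, f (a * b) = a * f b + b * f a) : ∃ D : Derivation ℤ K K, ∀ x, D x = f x := by
  have h0 : f 0 = 0 := by
    have h := hadd 0 0
    rw [add_zero] at h
    exact left_eq_add.1 h
  let g : K →+ K := { toFun := f, map_zero' := h0, map_add' := hadd }
  exact ⟨Derivation.mk' g.toIntLinearMap fun a b => hmul a b, fun x => rfl⟩

theorem st_DIF0 (hDEXT : ST_DEXT.{u}) (hDK : ST_DK.{u}) : ST_DIF0.{u} := by
  intro p _ k _ _ _ L _ _ _ _ v hv
  obtain ⟨D1, hD1⟩ := hDK p k
  obtain ⟨D0, hD01⟩ := dif0_transfer (K := LaurentSeries k) (fun x => D1 x)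
    (fun a b => map_add D1 a b) (fun a b => D1.leibniz a b)
  have hD0 : ∀ x : LaurentSeries k,
      x.orderTop ≤ (D0 x).orderTop + ((1 : ℤ) : WithTop ℤ) ∧
      ∀ m : ℤ, x.orderTop = (m : WithTop ℤ) → ¬ (p : ℤ) ∣ m →
      (D0 x).orderTop = ((m - 1 : ℤ) : WithTop ℤ) := by
    intro x
    rw [hD01]
    exact hD1 x
  obtain ⟨D, hD, hcomm⟩ := hDEXT (LaurentSeries k) L D0
  have hn : 0 < Module.finrank (LaurentSeries k) L := Module.finrank_pos
  have hval : ∀ x : LaurentSeries k, v (algebraMap (LaurentSeries k) L x) =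
      Module.finrank (LaurentSeries k) L • x.orderTop := by
    intro x
    rw [hv, val, Algebra.norm_algebraMap]
    have h1 := AddValuation.map_pow (HahnSeries.addVal ℤ k) x (Module.finrank (LaurentSeries k) L)
    rw [HahnSeries.addVal_apply, HahnSeries.addVal_apply] at h1
    exact h1
  have hcast : ∀ z : ℤ, (((Module.finrank (LaurentSeries k) L : ℤ) * z : ℤ) : WithTop ℤ) =
      Module.finrank (LaurentSeries k) L • (z : WithTop ℤ) := by
    intro z
    rw [← WithTop.coe_nsmul, nsmul_eq_mul]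
  refine ⟨D, hcomm, ?_, ?_⟩
  · intro x
    rw [hD, hval, hval, hcast, ← nsmul_add]
    exact nsmul_le_nsmul_right (hD0 x).1 _
  · intro x m hm hpm
    rw [hval, hcast] at hm
    rw [hD, hval, hcast, (hD0 x).2 m (dif0_eq hn hm) hpm]

end Pool.Agent.Helper20.NP
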