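import Pool.Agent.Helper20.NP.Stmts

set_option autoImplicit false

namespace Pool.Agent.Helper20.NP

open Pool.Agent.Helper21.DN

universe u

theorem red_aux (p : ℕ) [Fact p.Prime] (k E : Type u) [Field k] [CharP k p]
    [IsAlgClosed k] [Field E] (κ : k →+* E) (v : AddValuation E (WithTop ℤ)) (hT : TV κ v) :
    ∀ (M : ℕ) (f : E), ((-(M : ℤ) : ℤ) : WithTop ℤ) ≤ v f →
    ∃ h : E, (0 ≤ v (f - (h ^ p - h)) ∨ ∃ n : ℕ, 1 ≤ n ∧ ¬ p ∣ n ∧
      v (f - (h ^ p - h)) = ((-(n : ℤ) : ℤ) : WithTop ℤ)) ∧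
    ∀ N : ℤ, N ≤ 0 → (N : WithTop ℤ) ≤ v f → (N : WithTop ℤ) ≤ v (f - (h ^ p - h)) := by
  have hp : p.Prime := Fact.out
  have : CharP E p := charP_of_injective_ringHom κ.injective p
  have : ExpChar E p := ExpChar.prime hp
  have hzero : ∀ f : E, f - ((0 : E) ^ p - 0) = f := by
    intro f
    rw [zero_pow hp.ne_zero]; ring
  intro M
  induction M with
  | zero =>
    intro f hf
    refine ⟨0, ?_⟩
    rw [hzero]
    exact ⟨Or.inl (by simpa using hf), fun N _ h => h⟩
  | succ M ih =>
    intro f hf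
    by_cases h1 : ((-(M : ℤ) : ℤ) : WithTop ℤ) ≤ v f
    · exact ih f h1
    · have hvf : v f = ((-((M + 1 : ℕ) : ℤ) : ℤ) : WithTop ℤ) := by
        obtain ⟨z, hz⟩ : ∃ z : ℤ, v f = (z : WithTop ℤ) := by
          rcases h : v f with _ | z
          · exact absurd (h ▸ le_top) h1
          · exact ⟨z, rfl⟩
        rw [hz, WithTop.coe_le_coe] at h1 hf
        rw [hz]
        congr 1
        push_cast at hf ⊢
        omega
      by_cases hpM : p ∣ M + 1
      · obtain ⟨m, hm⟩ := hpM
        have hm1 : 1 ≤ m := by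
          rcases Nat.eq_zero_or_pos m with rfl | h
          · omega
          · exact h
        obtain ⟨π, hπ⟩ := hT.unif
        have hπ0 : π ≠ 0 := by
          rintro rfl
          rw [AddValuation.map_zero] at hπ
          exact absurd hπ (by decide)
        have hπn : ∀ n : ℕ, v (π ^ n) = ((n : ℤ) : WithTop ℤ) := by
          intro n
          rw [AddValuation.map_pow, hπ, nsmul_one]
          rfl
        have hinv : v (π ^ (p * m))⁻¹ = ((-((M + 1 : ℕ) : ℤ) : ℤ) : WithTop ℤ) := by
          rw [AddValuation.map_inv, hπn, ← hm]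
          rfl
        have hinv' : v (π ^ m)⁻¹ = ((-(m : ℤ) : ℤ) : WithTop ℤ) := by
          rw [AddValuation.map_inv, hπn]
          rfl
        have hfπ : v (f * π ^ (p * m)) = 0 := by
          rw [AddValuation.map_mul, hvf, hπn, ← hm, ← WithTop.coe_add, neg_add_cancel]
          rfl
        obtain ⟨c, hc⟩ := hT.const (f * π ^ (p * m)) hfπ.ge
        obtain ⟨d, hd⟩ := IsAlgClosed.exists_pow_nat_eq c hp.pos
        set h₁ : E := κ d * (π ^ m)⁻¹ with hh₁
        have hvh : ((-(m : ℤ) : ℤ) : WithTop ℤ) ≤ v h₁ := by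
          rw [hh₁, AddValuation.map_mul, hinv']
          have hd0 : 0 ≤ v (κ d) := by
            rcases eq_or_ne d 0 with rfl | hd0
            · rw [map_zero κ, AddValuation.map_zero]; exact le_top
            · exact (hT.alg d hd0).ge
          calc ((-(m : ℤ) : ℤ) : WithTop ℤ) = 0 + ((-(m : ℤ) : ℤ) : WithTop ℤ) := (zero_add _).symm
            _ ≤ _ := add_le_add_left hd0 _
        have hhp : h₁ ^ p = κ c * (π ^ (p * m))⁻¹ := by
          rw [hh₁, mul_pow, ← map_pow, hd, inv_pow, ← pow_mul, mul_comm m p]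
        have hvf' : ((-(M : ℤ) : ℤ) : WithTop ℤ) ≤ v (f - (h₁ ^ p - h₁)) := by
          have e1 : f - (h₁ ^ p - h₁) = (f * π ^ (p * m) - κ c) * (π ^ (p * m))⁻¹ + h₁ := by
            rw [hhp, sub_mul, mul_inv_cancel_right₀ (pow_ne_zero _ hπ0)]
            ring
          rw [e1]
          refine AddValuation.map_le_add v ?_ ?_
          · rw [AddValuation.map_mul, hinv]
            calc ((-(M : ℤ) : ℤ) : WithTop ℤ) = 1 + ((-((M + 1 : ℕ) : ℤ) : ℤ) : WithTop ℤ) := by
                  rw [← WithTop.coe_one, ← WithTop.coe_add]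
                  congr 1
                  push_cast; ring
              _ ≤ _ := add_le_add_left hc _
          · refine le_trans ?_ hvh
            rw [WithTop.coe_le_coe]
            have h2 : 2 * m ≤ p * m := Nat.mul_le_mul_right m hp.two_le
            have h3 : (m : ℤ) ≤ M := by
              have : m ≤ M := by omega
              exact_mod_cast this
            linarith
        obtain ⟨h', hh1, hh2⟩ := ih _ hvf'
        have e2 : f - ((h₁ + h') ^ p - (h₁ + h')) = f - (h₁ ^ p - h₁) - (h' ^ p - h') := by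
          rw [add_pow_expChar]; ring
        refine ⟨h₁ + h', ?_⟩
        rw [e2]
        refine ⟨hh1, fun N hN0 hN => hh2 N hN0 ?_⟩
        refine le_trans ?_ hvf'
        rw [hvf, WithTop.coe_le_coe] at hN
        rw [WithTop.coe_le_coe]
        push_cast at hN
        linarith
      · refine ⟨0, ?_⟩
        rw [hzero]
        exact ⟨Or.inr ⟨M + 1, by omega, hpM, hvf⟩, fun N _ h => h⟩

theorem st_RED : ST_RED.{u} := by
  intro p _ k E _ _ _ _ κ v hT f
  have hex : ∃ M : ℕ, ((-(M : ℤ) : ℤ) : WithTop ℤ) ≤ v f := by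
    rcases h : v f with _ | z
    · exact ⟨0, le_top⟩
    · refine ⟨(-z).toNat, ?_⟩
      change _ ≤ ((z : ℤ) : WithTop ℤ)
      rw [WithTop.coe_le_coe]
      omega
  obtain ⟨M, hM⟩ := hex
  exact red_aux p k E κ v hT M f hM

end Pool.Agent.Helper20.NP
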