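import Pool.Agent.Helper20.NP.Stmts

set_option autoImplicit false

namespace Pool.Agent.Helper20.NP

open Pool.Agent.Helper21.DN

universe u

theorem st_VK : ST_VK.{u} := by
  intro k K L _ _ _ _ _ _ κ v hR
  obtain ⟨vE, hT, hv⟩ := hR.sub ⊥
  have hcomap : ∀ x : K, (vE.comap (algebraMap K (⊥ : IntermediateField K L))) x =
      vE (algebraMap K (⊥ : IntermediateField K L) x) := fun x => rfl
  refine ⟨vE.comap (algebraMap K (⊥ : IntermediateField K L)), ⟨?_, ?_, ?_⟩, ?_⟩
  · obtain ⟨π, hπ⟩ := hT.unif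
    obtain ⟨x, hx⟩ := IntermediateField.mem_bot.1 π.2
    refine ⟨x, ?_⟩
    rw [hcomap]
    have : algebraMap K (⊥ : IntermediateField K L) x = π := Subtype.ext hx
    rw [this, hπ]
  · intro c hc
    exact hT.alg c hc
  · intro x hx
    obtain ⟨c, hc⟩ := hT.const (algebraMap K (⊥ : IntermediateField K L) x) hx
    refine ⟨c, ?_⟩
    rw [hcomap, map_sub]
    exact hc
  · intro x
    have h1 := hv (algebraMap K (⊥ : IntermediateField K L) x)
    rw [IntermediateField.finrank_bot'] at h1
    exact h1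

end Pool.Agent.Helper20.NP
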