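import Pool.Agent.Helper20.NP.Stmts

set_option autoImplicit false

namespace Pool.Agent.Helper20.NP

open Pool.Agent.Helper21.DN

universe u

/-- a derivation commuting with the Galois group maps a normal intermediate field to itself -/
theorem difr_mem {K L : Type u} [Field K] [Field L] [Algebra K L] [FiniteDimensional K L]
    [IsGalois K L] (D : Derivation ℤ L L) (hD : ∀ (σ : L ≃ₐ[K] L) (x : L), D (σ x) = σ (D x))
    (E : IntermediateField K L) (x : L) (hx : x ∈ E) : D x ∈ E := by
  rw [← IsGalois.fixedField_fixingSubgroup E]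
  rw [IntermediateField.mem_fixedField_iff]
  intro σ hσ
  rw [← hD, (IntermediateField.mem_fixingSubgroup_iff E σ).1 hσ x hx]

theorem difr_cancel {n : ℕ} (hn : 0 < n) {a b : WithTop ℤ} (h : n • a ≤ n • b) : a ≤ b := by
  induction b using WithTop.recTopCoe with
  | top => exact le_top
  | coe b =>
    induction a using WithTop.recTopCoe with
    | top =>
      exfalso
      have h1 : n • (⊤ : WithTop ℤ) = ⊤ := by
        obtain ⟨m, rfl⟩ : ∃ m, n = m + 1 := ⟨n - 1, by omega⟩
        rw [succ_nsmul, add_top]
      rw [h1, ← WithTop.coe_nsmul] at h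
      exact absurd h (not_le.2 (WithTop.coe_lt_top _))
    | coe a =>
      rw [← WithTop.coe_nsmul, ← WithTop.coe_nsmul, WithTop.coe_le_coe, nsmul_eq_mul,
        nsmul_eq_mul] at h
      rw [WithTop.coe_le_coe]
      exact le_of_mul_le_mul_left h (by exact_mod_cast hn)

theorem difr_eq {n : ℕ} (hn : 0 < n) {a b : WithTop ℤ} (h : n • a = n • b) : a = b :=
  le_antisymm (difr_cancel hn h.le) (difr_cancel hn h.ge)

theorem st_DIFR : ST_DIFR.{u} := by
  intro p K L _ _ _ _ _ v D e hDif E _ vE hvE
  have hn : 0 < Module.finrank E L := Module.finrank_pos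
  have hKL : Module.finrank K L = Module.finrank K E * Module.finrank E L :=
    (Module.finrank_mul_finrank K E L).symm
  have hcast : ∀ z : ℤ, (((Module.finrank K L : ℤ) * z : ℤ) : WithTop ℤ) =
      Module.finrank E L • ((((Module.finrank K E : ℤ) * z : ℤ)) : WithTop ℤ) := by
    intro z
    rw [← WithTop.coe_nsmul, nsmul_eq_mul, hKL]
    congr 1
    push_cast
    ring
  let l : E →ₗ[ℤ] E :=
    { toFun := fun x => ⟨D x, difr_mem D hDif.comm E x x.2⟩
      map_add' := fun a b => Subtype.ext (map_add D (a : L) (b : L))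
      map_smul' := fun a b => Subtype.ext (by
        change D ((a • b : E) : L) = ((a • (⟨D b, _⟩ : E) : E) : L)
        push_cast
        exact map_zsmul D a (b : L)) }
  let D' : Derivation ℤ E E := Derivation.mk' l fun a b => Subtype.ext (by
    change D ((a * b : E) : L) = ((a • (⟨D b, _⟩ : E) + b • (⟨D a, _⟩ : E) : E) : L)
    rw [IntermediateField.coe_mul, D.leibniz]
    rfl)
  have hD' : ∀ x : E, ((D' x : E) : L) = D (x : L) := fun x => rfl
  refine ⟨D', hD', ?_, ?_, ?_⟩
  · intro τ x
    obtain ⟨σ, hσ⟩ := AlgEquiv.restrictNormalHom_surjective (F := K) (K₁ := E) L τ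
    have h1 : ∀ y : E, ((τ y : E) : L) = σ (y : L) := by
      intro y
      rw [← hσ]
      exact AlgEquiv.restrictNormal_commutes σ E y
    apply Subtype.ext
    rw [hD', h1, hDif.comm, h1, hD']
  · intro x
    have h1 := hDif.le x
    have h2 : ((algebraMap K E x : E) : L) = algebraMap K L x := rfl
    rw [← h2, ← hD', hvE, hvE, hcast, ← nsmul_add] at h1
    exact difr_cancel hn h1
  · intro x m hm hpm
    have h2 : ((algebraMap K E x : E) : L) = algebraMap K L x := rfl
    have h1 := hDif.eq x m (by rw [← h2, hvE, hm, hcast]) hpm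
    rw [← h2, ← hD', hvE, hcast] at h1
    exact difr_eq hn h1

end Pool.Agent.Helper20.NP
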